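import Pool.Agent.W64.DM.Stm

/-! DM-GCD (helper782): pairs with a large gcd. -/

set_option autoImplicit false

namespace Pool.Agent.W782.DM.Gcd

open Pool.Agent.W64.DM Finset

theorem mult (N q : ℕ) (hq : 1 ≤ q) (hqN : q < 2 * N) :
    ((Finset.Ico N (2 * N)).filter fun n => q ∣ n).card * q ≤ 3 * N := by
  have h : ((Finset.Ico N (2 * N)).filter fun n => q ∣ n).card ≤
      (2 * N - 1) / q + 1 - (N + q - 1) / q := by
    rw [← Nat.card_Icc]
    apply Finset.card_le_card_of_injOn (fun n => n / q)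
    · intro n hn
      rw [Finset.mem_coe, Finset.mem_filter, Finset.mem_Ico] at hn
      obtain ⟨⟨h1, h2⟩, m, rfl⟩ := hn
      rw [Finset.mem_coe, Finset.mem_Icc]
      change (N + q - 1) / q ≤ q * m / q ∧ q * m / q ≤ (2 * N - 1) / q
      rw [Nat.mul_div_cancel_left m hq]
      constructor
      · rw [← Nat.lt_succ_iff, Nat.div_lt_iff_lt_mul hq, Nat.succ_mul, Nat.mul_comm m q]
        omega
      · rw [Nat.le_div_iff_mul_le hq, Nat.mul_comm m q]
        omega
    · intro n hn n' hn' hnn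
      rw [Finset.mem_coe, Finset.mem_filter] at hn hn'
      have hnn' : n / q = n' / q := hnn
      rw [← Nat.div_mul_cancel hn.2, hnn', Nat.div_mul_cancel hn'.2]
  have h1 := Nat.div_mul_le_self (2 * N - 1) q
  have h2 : N + q - 1 < (N + q - 1) / q * q + q := by
    have := Nat.lt_div_mul_add (a := N + q - 1) (b := q) hq
    omega
  calc _ ≤ ((2 * N - 1) / q + 1 - (N + q - 1) / q) * q := Nat.mul_le_mul_right q h
    _ ≤ 3 * N := by
      rw [Nat.sub_mul, Nat.add_mul, Nat.one_mul]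
      omega

theorem main : S_GCD := by
  intro b b' G hG
  set N := 2 ^ b with hN
  set N' := 2 ^ b' with hN'
  have e1 : 2 ^ (b + 1) = 2 * N := by rw [pow_succ, mul_comm]
  have e2 : 2 ^ (b' + 1) = 2 * N' := by rw [pow_succ, mul_comm]
  have e3 : 2 ^ (b + b') = N * N' := pow_add 2 b b'
  rw [e1, e2, e3]
  set Q := min (2 * N) (2 * N') with hQ
  have hsub : ((Finset.Ico N (2 * N) ×ˢ Finset.Ico N' (2 * N')).filter fun q =>
      G < Nat.gcd q.1 q.2) ⊆ (Finset.Ioo G Q).biUnion fun q =>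
        ((Finset.Ico N (2 * N)).filter fun n => q ∣ n) ×ˢ
          ((Finset.Ico N' (2 * N')).filter fun n => q ∣ n) := by
    rintro ⟨n, n'⟩ hn
    rw [Finset.mem_filter, Finset.mem_product] at hn
    obtain ⟨⟨h1, h2⟩, h3⟩ := hn
    dsimp only at h1 h2 h3
    have hpos : 0 < N := by positivity
    have hpos' : 0 < N' := by positivity
    have h1' := Finset.mem_Ico.1 h1
    have h2' := Finset.mem_Ico.1 h2
    have g1 : Nat.gcd n n' ≤ n := Nat.gcd_le_left _ (by omega)
    have g2 : Nat.gcd n n' ≤ n' := Nat.gcd_le_right _ (by omega)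
    rw [Finset.mem_biUnion]
    refine ⟨Nat.gcd n n', ?_, ?_⟩
    · rw [Finset.mem_Ioo, hQ, lt_min_iff]
      omega
    · rw [Finset.mem_product, Finset.mem_filter, Finset.mem_filter]
      exact ⟨⟨h1, Nat.gcd_dvd_left _ _⟩, ⟨h2, Nat.gcd_dvd_right _ _⟩⟩
  have hcard : ((((Finset.Ico N (2 * N) ×ˢ Finset.Ico N' (2 * N')).filter fun q =>
      G < Nat.gcd q.1 q.2).card : ℕ) : ℝ) ≤ ∑ q ∈ Finset.Ioo G Q, 9 * (N * N' : ℝ) * ((q : ℝ) ^ 2)⁻¹ := by
    have h1 := (Finset.card_le_card hsub).trans Finset.card_biUnion_le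
    refine (Nat.cast_le.2 h1).trans ?_
    rw [Nat.cast_sum]
    refine Finset.sum_le_sum fun q hq => ?_
    rw [Finset.mem_Ioo, hQ, lt_min_iff] at hq
    rw [Finset.card_product, Nat.cast_mul]
    have hq0 : (0 : ℝ) < q := by exact_mod_cast (by omega : 0 < q)
    have m1 : ((((Finset.Ico N (2 * N)).filter fun n => q ∣ n).card : ℕ) : ℝ) * q ≤ 3 * N := by
      exact_mod_cast mult N q (by omega) hq.2.1
    have m2 : ((((Finset.Ico N' (2 * N')).filter fun n => q ∣ n).card : ℕ) : ℝ) * q ≤ 3 * N' := by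
      exact_mod_cast mult N' q (by omega) hq.2.2
    have m3 := mul_le_mul m1 m2 (by positivity) (by positivity)
    rw [← div_eq_mul_inv, le_div_iff₀ (by positivity)]
    calc _ = _ := by ring
      _ ≤ _ := m3
      _ = _ := by ring
  rw [← Finset.mul_sum] at hcard
  have hs := sum_Ioo_inv_sq_le (α := ℝ) G Q
  have hG' : (1 : ℝ) ≤ G := by exact_mod_cast hG
  have hfin : (((((Finset.Ico N (2 * N) ×ˢ Finset.Ico N' (2 * N')).filter fun q =>
      G < Nat.gcd q.1 q.2).card : ℕ) : ℝ)) * G ≤ 18 * (N * N' : ℝ) := by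
    calc _ ≤ (9 * (N * N' : ℝ) * (2 / (G + 1))) * G :=
          mul_le_mul_of_nonneg_right (hcard.trans (mul_le_mul_of_nonneg_left hs (by positivity)))
            (by positivity)
      _ = 18 * (N * N' : ℝ) * (G / (G + 1)) := by field_simp; ring
      _ ≤ 18 * (N * N' : ℝ) * 1 := by
        apply mul_le_mul_of_nonneg_left _ (by positivity)
        rw [div_le_one (by positivity)]
        linarith
      _ = _ := by ring
  exact_mod_cast hfin

end Pool.Agent.W782.DM.Gcd
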