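import Pool.Agent.W64.DM.Stm

/-! DM-VOL (helper782): the measure of the set of the numbers with small distance to the integers. -/

set_option autoImplicit false

namespace Pool.Agent.W782.DM.Vol

open Pool.Agent.W64.DM MeasureTheory Set

theorem nn_add_one (x : ℝ) : nn (x + 1) = nn x := by
  unfold nn
  rw [round_add_one]
  push_cast
  congr 1
  ring

theorem nn_measurable : Measurable nn := by
  unfold nn
  have h : (fun x : ℝ => |x - round x|) = fun x : ℝ => |x - ((⌊x + 1 / 2⌋ : ℤ) : ℝ)| := by
    funext x
    rw [round_eq]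
  rw [h]
  have h2 : Measurable fun x : ℝ => ((⌊x + 1 / 2⌋ : ℤ) : ℝ) :=
    (measurable_from_top (f := fun z : ℤ => (z : ℝ))).comp
      (Int.measurable_floor.comp (measurable_id.add_const _))
  exact (measurable_id.sub h2).abs

theorem main : S_VOL := by
  intro g y ρ hg hρ hρ2
  set S : Set ℝ := {s | nn s < ρ} with hS
  have hSm : MeasurableSet S := measurableSet_lt nn_measurable measurable_const
  set f : ℝ → ℝ := S.indicator 1 with hf
  have hper : Function.Periodic f 1 := by
    intro x
    have : x + 1 ∈ S ↔ x ∈ S := by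
      simp only [hS, mem_setOf_eq, nn_add_one]
    by_cases h : x ∈ S
    · rw [hf, indicator_of_mem h, indicator_of_mem (this.2 h)]
      rfl
    · rw [hf, indicator_of_notMem h, indicator_of_notMem (fun h' => h (this.1 h'))]
  have hint : ∀ t₁ t₂, IntervalIntegrable f volume t₁ t₂ := by
    intro t₁ t₂
    rw [intervalIntegrable_iff]
    have h1 : IntervalIntegrable (fun _ => (1 : ℝ)) volume t₁ t₂ := intervalIntegrable_const
    exact (intervalIntegrable_iff.1 h1).indicator hSm
  have hg0 : (g : ℝ) ≠ 0 := by exact_mod_cast (by omega : g ≠ 0)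
  have hT : MeasurableSet {t : ℝ | nn (y + g * t) < ρ} :=
    measurableSet_lt (nn_measurable.comp (by fun_prop)) measurable_const
  have hA : (volume (Icc (0 : ℝ) 1 ∩ {t : ℝ | nn (y + g * t) < ρ})).toReal =
      ∫ t in (0 : ℝ)..1, f (y + g * t) := by
    rw [intervalIntegral.integral_of_le zero_le_one, ← integral_Icc_eq_integral_Ioc]
    have e : (fun t => f (y + g * t)) = {t : ℝ | nn (y + g * t) < ρ}.indicator 1 := by
      funext t
      by_cases h : nn (y + g * t) < ρ
      · rw [indicator_of_mem (show t ∈ {t : ℝ | nn (y + g * t) < ρ} from h), hf,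
          indicator_of_mem (show y + g * t ∈ S from h)]
        rfl
      · rw [indicator_of_notMem (show t ∉ {t : ℝ | nn (y + g * t) < ρ} from h), hf,
          indicator_of_notMem (show y + g * t ∉ S from h)]
    rw [e, integral_indicator_one hT, measureReal_restrict_apply hT, inter_comm]
    rfl
  have hB : ∫ t in (0 : ℝ)..1, f (y + g * t) = ∫ s in (-(1 / 2) : ℝ)..(-(1 / 2) + 1), f s := by
    rw [intervalIntegral.integral_comp_add_mul f hg0 y]
    have e : y + (g : ℝ) * 1 = y + (g : ℝ) * 0 + (g : ℤ) • (1 : ℝ) := by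
      simp
    rw [e, hper.intervalIntegral_add_zsmul_eq _ _ hint, hper.intervalIntegral_add_eq _ (-(1 / 2))]
    rw [zsmul_eq_mul, smul_eq_mul]
    push_cast
    rw [← mul_assoc, inv_mul_cancel₀ hg0, one_mul]
  have hC : S ∩ Ioc (-(1 / 2) : ℝ) (-(1 / 2) + 1) = Ioo (-ρ) ρ := by
    ext s
    simp only [hS, mem_inter_iff, mem_setOf_eq, mem_Ioc, mem_Ioo]
    constructor
    · rintro ⟨h1, h2, h3⟩
      rcases lt_or_eq_of_le (show s ≤ 1 / 2 by linarith) with h | h
      · have h0 : round s = 0 := round_eq_zero_iff.2 ⟨h2.le, h⟩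
        rw [nn, h0, Int.cast_zero, sub_zero] at h1
        exact abs_lt.1 h1
      · exfalso
        rw [nn, abs_sub_round_eq_min, h] at h1
        have hfr : Int.fract (1 / 2 : ℝ) = 1 / 2 := by
          rw [Int.fract_eq_self]
          norm_num
        rw [hfr] at h1
        norm_num at h1
        linarith
    · rintro ⟨h1, h2⟩
      have h0 : round s = 0 := round_eq_zero_iff.2 ⟨by linarith, by linarith⟩
      refine ⟨?_, by linarith, by linarith⟩
      rw [nn, h0, Int.cast_zero, sub_zero]
      exact abs_lt.2 ⟨h1, h2⟩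
  rw [hA, hB, intervalIntegral.integral_of_le (by norm_num), hf, integral_indicator_one hSm,
    measureReal_restrict_apply hSm, hC, measureReal_def, Real.volume_Ioo,
    ENNReal.toReal_ofReal (by linarith)]
  ring

end Pool.Agent.W782.DM.Vol
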